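import Mathlib
import Pool.Agent.W_MP_a02419_co.KempeMain

/-! Every finite bipartite graph is scheme-contractible. -/

namespace Pool.Agent.Results.MP_a02419_co.BipartiteSchemeContractible

universe u v

/-- The embedding `r : W ↪ V` identifies the vertices of `H` with vertices of `G`.
`IsScheme G H r P` says that the family `P` (one subgraph `P e` of `G` for each edge `e` of `H`)
is an `H`-scheme in `G`: for every edge `ab` of `H` the subgraph `P ab` is an `a,b`-path of `G`
which meets the vertices of `H` in `a` and `b` only; and whenever the vertex sets of `P e`, for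
`e` in a nonempty finite set `F` of edges of `H`, have a common element, the edges in `F` share
a common endpoint in `H`. -/
def IsScheme {V : Type u} {W : Type v} (G : SimpleGraph V) (H : SimpleGraph W) (r : W ↪ V)
    (P : H.edgeSet → G.Subgraph) : Prop :=
  (∀ (a b : W) (h : H.Adj a b), ∃ p : G.Walk (r a) (r b),
      p.IsPath ∧ P ⟨s(a, b), h⟩ = p.toSubgraph) ∧
  (∀ (a b : W) (h : H.Adj a b), (P ⟨s(a, b), h⟩).verts ∩ Set.range r = {r a, r b}) ∧
  (∀ F : Finset H.edgeSet, F.Nonempty → (∃ z : V, ∀ e ∈ F, z ∈ (P e).verts) →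
      ∃ w : W, ∀ e ∈ F, w ∈ (e : Sym2 W))

/-- `G` has a rooted `H`-minor: there are pairwise vertex-disjoint connected subgraphs `C w` of
`G`, one for each vertex `w` of `H`, with `w` in `C w`, such that for every edge `ab` of `H` some
edge of `G` joins `C a` and `C b`. -/
def HasRootedMinor {V : Type u} {W : Type v} (G : SimpleGraph V) (H : SimpleGraph W)
    (r : W ↪ V) : Prop :=
  ∃ C : W → G.Subgraph, (∀ w, (C w).Connected) ∧ (∀ w, r w ∈ (C w).verts) ∧
    (∀ a b, a ≠ b → Disjoint (C a).verts (C b).verts) ∧
    (∀ a b, H.Adj a b → ∃ x ∈ (C a).verts, ∃ y ∈ (C b).verts, G.Adj x y)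

/-- `H` is scheme-contractible: every finite graph `G` that contains an `H`-scheme has a rooted
`H`-minor. -/
def SchemeContractible {W : Type v} (H : SimpleGraph W) : Prop :=
  ∀ (V : Type u) [Finite V] (G : SimpleGraph V) (r : W ↪ V) (P : H.edgeSet → G.Subgraph),
    IsScheme G H r P → HasRootedMinor G H r

open Relation Pool.Agent.W_MP_a02419_co in
theorem walk_kempe {V : Type u} {W : Type v} (G : SimpleGraph V) (c : V → W) (a b : W)
    {x y : V} (p : G.Walk x y) (h : ∀ z ∈ p.support, c z = a ∨ c z = b) :
    ReflTransGen (KStep G c a b) x y := by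
  induction p with
  | nil => exact ReflTransGen.refl
  | cons hadj q ih =>
    refine ReflTransGen.head ⟨hadj, h _ (by simp), h _ (by simp)⟩ (ih ?_)
    intro z hz
    exact h z (by simp [hz])

open Relation Pool.Agent.W_MP_a02419_co in
theorem minor_of_model {V : Type u} {W : Type v} (G : SimpleGraph V) (H : SimpleGraph W)
    (r : W ↪ V) (hm : Model G H r) : HasRootedMinor G H r := by
  obtain ⟨C, h1, h2, h3, h4⟩ := hm
  refine ⟨fun w => (⊤ : G.Subgraph).induce (C w), ?_, h1, h3, h4⟩
  intro w
  rw [SimpleGraph.Subgraph.connected_iff]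
  refine ⟨?_, ⟨r w, h1 w⟩⟩
  have key : ∀ z (hz : z ∈ C w),
      ((⊤ : G.Subgraph).induce (C w)).coe.Reachable ⟨r w, h1 w⟩ ⟨z, hz⟩ := by
    intro z hz
    have hr := h2 w z hz
    have : ∀ z, ReflTransGen (fun x y => G.Adj x y ∧ x ∈ C w ∧ y ∈ C w) (r w) z →
        ∀ hz : z ∈ C w,
        ((⊤ : G.Subgraph).induce (C w)).coe.Reachable ⟨r w, h1 w⟩ ⟨z, hz⟩ := by
      intro z hzr
      induction hzr with
      | refl => intro _; exact SimpleGraph.Reachable.refl _
      | tail _ hbc ih =>
        intro hz
        refine (ih hbc.2.1).trans (SimpleGraph.Adj.reachable ?_)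
        rw [SimpleGraph.Subgraph.coe_adj]
        exact ⟨hbc.2.1, hbc.2.2, hbc.1⟩
    exact this z hr hz
  rw [SimpleGraph.Subgraph.preconnected_iff]
  intro x y
  exact ((key x.1 x.2).symm).trans (key y.1 y.2)

/-- **Every finite bipartite graph is scheme-contractible.** -/
theorem result (W : Type v) [Finite W] (H : SimpleGraph W) (hH : H.IsBipartite) :
    SchemeContractible.{u, v} H := by
  intro V _ G r P hP
  obtain ⟨hpath, hends, hstar⟩ := hP
  apply minor_of_model
  classical
  rcases isEmpty_or_nonempty W with hW | hW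
  · exact ⟨fun _ => ∅, fun w => (hW.false w).elim, fun w => (hW.false w).elim,
      fun w => (hW.false w).elim, fun w => (hW.false w).elim⟩
  obtain ⟨col⟩ := hH
  obtain ⟨w0⟩ := hW
  have := Fintype.ofFinite W
  have : Finite H.edgeSet := inferInstance
  have := Fintype.ofFinite H.edgeSet
  -- the colouring
  have hex : ∀ z : V, ∃ w : W, (∀ w', r w' = z → w = w') ∧
      ∀ e : H.edgeSet, z ∈ (P e).verts → w ∈ (e : Sym2 W) := by
    intro z
    by_cases hz : ∃ w, r w = z
    · obtain ⟨w, rfl⟩ := hz
      refine ⟨w, fun w' h => (r.injective h).symm, ?_⟩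
      rintro ⟨e, he⟩ hze
      induction e using Sym2.ind with
      | _ a b =>
        have hmem : r w ∈ (P ⟨s(a, b), he⟩).verts ∩ Set.range r := ⟨hze, w, rfl⟩
        rw [hends a b he] at hmem
        rcases hmem with h | h
        · have := r.injective h
          simp [this]
        · have := r.injective h
          simp [this]
    · by_cases he : ∃ e : H.edgeSet, z ∈ (P e).verts
      · obtain ⟨e0, he0⟩ := he
        obtain ⟨w, hw⟩ := hstar (Finset.univ.filter (fun e => z ∈ (P e).verts))
          ⟨e0, by simp [he0]⟩ ⟨z, fun e he => by simpa using he⟩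
        exact ⟨w, fun w' h => absurd ⟨w', h⟩ hz, fun e he => hw e (by simp [he])⟩
      · exact ⟨w0, fun w' h => absurd ⟨w', h⟩ hz, fun e he' => absurd ⟨e, he'⟩ he⟩
  choose c hc1 hc2 using hex
  refine Pool.Agent.W_MP_a02419_co.kempe_main H (fun w => col w = 0) ?_ (Nat.card V) V G r c rfl
    (fun w => hc1 (r w) w rfl) ?_
  · intro a b hab
    have hne := col.valid hab
    constructor
    · intro h1 h2
      exact hne (h1.trans h2.symm)
    · intro h1
      by_contra h2
      apply hne
      have ha : col a = 1 := by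
        rcases Fin.exists_fin_two.mp ⟨col a, rfl⟩ with h | h
        · exact absurd h h2
        · exact h
      have hb : col b = 1 := by
        rcases Fin.exists_fin_two.mp ⟨col b, rfl⟩ with h | h
        · exact absurd h h1
        · exact h
      rw [ha, hb]
  · intro a b hab
    obtain ⟨p, _, hp⟩ := hpath a b hab
    apply walk_kempe G c a b p
    intro z hz
    have hz' : z ∈ (P ⟨s(a, b), hab⟩).verts := by
      rw [hp]
      simpa using hz
    have := hc2 z _ hz'
    simpa using this

end Pool.Agent.Results.MP_a02419_co.BipartiteSchemeContractible
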